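import Mathlib

/-!
# Nef line bundles on primitive symplectic varieties: data and known facts
-/

namespace Pool.Agent.N522.PS

/-- Normal projective varieties, line bundles, surjective morphisms. -/
structure Theory where
  /-- normal projective varieties -/
  Var : Type
  /-- projective primitive symplectic varieties -/
  Prim : Var → Prop
  /-- `ℚ`-factorial with terminal singularities -/
  QT : Var → Prop
  /-- smooth projective hyper-Kähler manifolds of a known deformation class -/
  KnownHK : Var → Prop
  /-- line bundles -/
  LB : Var → Type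
  /-- nef -/
  Nef : ∀ {X : Var}, LB X → Prop
  /-- semiample -/
  Semiample : ∀ {X : Var}, LB X → Prop
  /-- surjective morphisms -/
  Sur : Var → Var → Type
  /-- pull-back of line bundles -/
  pull : ∀ {Y X : Var}, Sur Y X → LB X → LB Y

variable {T : Theory}

/-- All nef line bundles are semiample. -/
def Good (X : T.Var) : Prop := ∀ L : T.LB X, T.Nef L → T.Semiample L

/-- Q1 -/
def Q1 (T : Theory) : Prop := ∀ M : T.Var, T.Prim M → Good M

/-- Q1 for `ℚ`-factorial terminal varieties -/
def Q1QT (T : Theory) : Prop := ∀ M : T.Var, T.Prim M → T.QT M → Good M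

/-- Known facts. -/
structure Facts (T : Theory) : Prop where
  /-- nefness is preserved by pull-back -/
  nef_pull : ∀ (Y X : T.Var) (f : T.Sur Y X) (L : T.LB X), T.Nef L → T.Nef (T.pull f L)
  /-- semiampleness descends along surjective morphisms to normal varieties -/
  semiample_descent : ∀ (Y X : T.Var) (f : T.Sur Y X) (L : T.LB X), T.Semiample (T.pull f L) →
    T.Semiample L
  /-- `ℚ`-factorial terminalisations exist (Birkar–Cascini–Hacon–McKernan), and are again primitive
  symplectic -/
  terminalisation : ∀ M : T.Var, T.Prim M → ∃ M' : T.Var, T.Prim M' ∧ T.QT M' ∧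
    Nonempty (T.Sur M' M)
  /-- known deformation classes (page) -/
  known : ∀ X : T.Var, T.KnownHK X → Good X

theorem good_of_sur (F : Facts T) (Y X : T.Var) (f : T.Sur Y X) (hY : Good Y) : Good X :=
  fun L hL => F.semiample_descent Y X f L (hY _ (F.nef_pull Y X f L hL))

theorem q1_iff (F : Facts T) : Q1 T ↔ Q1QT T := by
  refine ⟨fun h M hM _ => h M hM, fun h M hM => ?_⟩
  obtain ⟨M', hM', hQT, ⟨f⟩⟩ := F.terminalisation M hM
  exact good_of_sur F M' M f (h M' hM' hQT)

end Pool.Agent.N522.PS
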